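import Pool.Agent.helper88.RQ2.Spec

/-!
# Row RLE of project RQ
-/

set_option autoImplicit false

open Set Matroid RadonMin

namespace RadonQ2

theorem RLE_proof : RLE_stmt := by
  intro V _ _ _ d S hd1 hr0 hS
  have hr : rk (affMat S) (affMat S).E ≤ d + 1 := hr0
  have hs := affMat_simp S
  have hg := affMat_good S
  have hn : (affMat S).E.ncard = S.card := by rw [affMat_E, ncard_coe_finset]
  change radonMin d S.card ≤ cc (affMat S)
  set r := rk (affMat S) (affMat S).E with hrdef
  set s := S.card with hsdef
  unfold radonMin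
  split_ifs with hpar
  · -- odd dimension
    obtain ⟨k, hk⟩ : ∃ k, d + 1 = 2 * k := ⟨(d + 1) / 2, by omega⟩
    have hk1 : 1 ≤ k := by omega
    have hdk : (d + 1) / 2 = k := by omega
    rw [hdk]
    have hst := Nat.div_add_mod s k
    have hmod := Nat.mod_lt s (show k > 0 by omega)
    set q := s / k with hq
    set t := s % k with ht
    have hsq : s = q * k + t := by rw [← hst]; ring
    rw [hsq, bal_eq k q t hk1 hmod.le]
    have h1 := T_bound hs hg q
    rw [hn, ← hrdef] at h1
    have h2 : (r : ℤ) ≤ 2 * k := by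
      have : r ≤ 2 * k := by omega
      exact_mod_cast this
    have h3 : ((q + 1).choose 3 : ℤ) * r ≤ (q + 1).choose 3 * (2 * k) :=
      mul_le_mul_of_nonneg_left h2 (by positivity)
    have h4 := choose_two_mul q
    have h5 := choose_three_succ q
    have h6 : (s : ℤ) = q * k + t := by exact_mod_cast hsq
    have goal : ((k * q.choose 3 + t * q.choose 2 : ℕ) : ℤ) ≤ cc (affMat S) := by
      push_cast
      rw [h6] at h1
      have h7 : (q.choose 2 : ℤ) * q = 2 * (q + 1).choose 3 + q.choose 3 := by linarith
      have h8 : (q.choose 2 : ℤ) * (q * k + t) = (q.choose 2 * q) * k + t * q.choose 2 := by ring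
      rw [h8, h7] at h1
      nlinarith
    exact_mod_cast goal
  · -- even dimension
    obtain ⟨k, hk⟩ : ∃ k, d = 2 * k := ⟨d / 2, by omega⟩
    have hk1 : 1 ≤ k := by omega
    have hdk : d / 2 = k := by omega
    rw [hdk]
    set x := s - 1 with hx
    have hL := Nat.div_add_mod (x + k - 1) k
    have hmod := Nat.mod_lt (x + k - 1) (show k > 0 by omega)
    set L := (x + k - 1) / k with hLdef
    have hx2 : 2 * k + 1 ≤ x := by omega
    have hL3 : 3 ≤ L := by
      by_contra hlt
      have : L ≤ 2 := by omega
      have h1 : k * L ≤ k * 2 := Nat.mul_le_mul_left k this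
      omega
    obtain ⟨q, hq⟩ : ∃ q, L = q + 1 := ⟨L - 1, by omega⟩
    have hq2 : 2 ≤ q := by omega
    have hqk : k * L = q * k + k := by rw [hq]; ring
    obtain ⟨t, ht⟩ : ∃ t, x = q * k + t := ⟨x - q * k, by omega⟩
    have ht1 : 1 ≤ t := by omega
    have htk : t ≤ k := by omega
    rw [ht, bal_eq k q t hk1 htk, hq]
    have hs' : (s : ℤ) = q * k + t + 1 := by
      have : s = q * k + t + 1 := by omega
      exact_mod_cast this
    have h4 := choose_two_mul q
    have h5 := choose_three_succ q
    have h7 : (q.choose 2 : ℤ) * q = 2 * (q + 1).choose 3 + q.choose 3 := by linarith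
    suffices h : ((k * q.choose 3 + t * q.choose 2 : ℕ) : ℤ) - corr (q + 1) ≤ cc (affMat S) by
      have h' : ((k * q.choose 3 + t * q.choose 2 : ℕ) : ℤ) ≤
          ((cc (affMat S) + corr (q + 1) : ℕ) : ℤ) := by push_cast at h ⊢; linarith
      have h'' : k * q.choose 3 + t * q.choose 2 ≤ cc (affMat S) + corr (q + 1) := by
        exact_mod_cast h'
      omega
    rcases Nat.lt_or_ge r (2 * k + 1) with hr2 | hr2
    · have h1 := T_bound hs hg q
      rw [hn, ← hrdef] at h1
      have h2 : (r : ℤ) ≤ 2 * k := by
        have : r ≤ 2 * k := by omega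
        exact_mod_cast this
      have h3 : ((q + 1).choose 3 : ℤ) * r ≤ (q + 1).choose 3 * (2 * k) :=
        mul_le_mul_of_nonneg_left h2 (by positivity)
      rw [hs'] at h1
      have h8 : (q.choose 2 : ℤ) * (q * k + t + 1) =
        (q.choose 2 * q) * k + t * q.choose 2 + q.choose 2 := by ring
      rw [h8, h7] at h1
      have h9 : (0 : ℤ) ≤ q.choose 2 := by positivity
      have h10 : (0 : ℤ) ≤ corr (q + 1) := by positivity
      push_cast
      nlinarith
    · have hr3 : r = 2 * k + 1 := by omega
      have h1 := U_bound hs hg k hk1 hr3 q hq2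
      rw [hn] at h1
      have h2 := hh_cast (q + 2)
      rw [show q + 2 - 1 = q + 1 by omega] at h2
      rw [hs', h2] at h1
      have h8 : (q.choose 2 : ℤ) * (q * k + t + 1 - q - 2) =
        (q.choose 2 * q) * (k - 1) + (t - 1) * q.choose 2 := by ring
      rw [h8, h7] at h1
      push_cast
      nlinarith

end RadonQ2
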